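import Pool.Agent.Helper14_MV.B2
import Pool.Agent.Helper14_MV.CR
import Pool.Agent.Helper4_MV.Iso
import Pool.Agent.Helper2_MV.Keep

/-!
# Frame of the aperiodic classification (MP_23468a_al): definitions and first lemmas

`RR β l l'` says that the identity `l ≈ l'` between lists of letters belongs to the fully invariant
congruence `β`.  Aperiodic situation: `x^2 ≈ x^3`, not completely regular.
-/

namespace Pool.Agent.MWF

open Pool.Agent.Helper14_MV Pool.Agent.Helper2_MV

/-- every letter doubled -/
def dbl (l : List ℕ) : List ℕ := l.flatMap (fun c => [c, c])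

/-- the aperiodic situation: `x^2 ≈ x^3` holds and `x ≈ x^2` does not hold -/
structure Ap (β : FIC) : Prop where
  sq : RR β [0, 0] [0, 0, 0]
  ncr : ¬ RR β [0] [0, 0]

/-- `gam P` is the largest fully invariant congruence which preserves `P` -/
theorem le_gam {β : FIC} {P : Word → Prop} (h : ∀ u v, β.r u v → P u → P v) : β ≤ gam P := by
  intro u v huv φ m q
  have h1 : β.r (m * φ u * q) (m * φ v * q) :=
    β.mul (β.mul (β.refl m) (β.sub φ huv)) (β.refl q)
  exact ⟨h _ _ h1, h _ _ (β.symm h1)⟩

/-- the largest fully invariant congruence which preserves a property of lists -/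
def gaml (P : List ℕ → Prop) : FIC := gam (fun w => P w.toList)

theorem le_gaml {β : FIC} {P : List ℕ → Prop} (h : ∀ u v, RR β u v → P u → P v) :
    β ≤ gaml P := by
  apply le_gam
  intro u v huv
  exact h u.toList v.toList (by
    show β.r (FreeMonoid.ofList u.toList) (FreeMonoid.ofList v.toList)
    rw [FreeMonoid.ofList_toList, FreeMonoid.ofList_toList]
    exact huv)

theorem gaml_keep {P : List ℕ → Prop} {u v : List ℕ} (h : RR (gaml P) u v) : P u ↔ P v := by
  have h1 := gam_self h
  simpa using h1

/-- the value of a list under a substitution given by lists -/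
theorem toList_subst (φ : Word →* Word) (w : Word) :
    (φ w).toList = w.toList.flatMap (fun i => (φ (FreeMonoid.of i)).toList) :=
  toList_hom φ w

/-- an identity preserves `P` if it does so in all contexts and under all substitutions -/
theorem RR_gaml {P : List ℕ → Prop} {l l' : List ℕ}
    (h : ∀ (f : ℕ → List ℕ) (p q : List ℕ),
      P (p ++ l.flatMap f ++ q) ↔ P (p ++ l'.flatMap f ++ q)) : RR (gaml P) l l' := by
  intro φ m q
  have h1 := h (fun i => (φ (FreeMonoid.of i)).toList) m.toList q.toList
  have e : ∀ l : List ℕ, (m * φ (FreeMonoid.ofList l) * q).toList =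
      m.toList ++ l.flatMap (fun i => (φ (FreeMonoid.of i)).toList) ++ q.toList := by
    intro l
    rw [FreeMonoid.toList_mul, FreeMonoid.toList_mul, toList_subst, FreeMonoid.toList_ofList]
  show P (m * φ (FreeMonoid.ofList l) * q).toList ↔ P (m * φ (FreeMonoid.ofList l') * q).toList
  rw [e, e]
  exact h1

/-- **Pentagon lemma.**  If the modular law holds above `β`, `ρ` and `σ ⊓ τ` preserve `P` and
`ρ ≤ τ`, then a pair of `τ` in the join of `ρ` and `σ` preserves `P`. -/
theorem pent {β ρ σ τ : FIC} (hm : ModF β) (hρ : β ≤ ρ) (hσ : β ≤ σ) (hτ : β ≤ τ) (hle : ρ ≤ τ)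
    {P : List ℕ → Prop} (h1 : ∀ u v, RR ρ u v → P u → P v)
    (h2 : ∀ u v, RR σ u v → RR τ u v → P u → P v) {u v : List ℕ}
    (hs : RR (FIC.sup ρ σ) u v) (ht : RR τ u v) (hu : P u) : P v := by
  have h3 := hm ρ σ τ hρ hσ hτ hle _ _ hs ht
  have h4 : FIC.sup ρ (FIC.inf σ τ) ≤ gaml P := by
    apply FIC.sup_le
    · exact le_gaml h1
    · apply le_gaml
      intro a b hab
      exact h2 a b hab.1 hab.2
  exact (gaml_keep (h4 _ _ h3)).1 hu

end Pool.Agent.MWF
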