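import Pool.Agent.MWF.Defs

/-!
# MWF: frame of the classification of the aperiodic monoid varieties with modular lattice

MP_23468a_al.  Every statement is a self-contained row with its complete proof in the docstring.
Words are lists of natural numbers; `RR β l l'` : the identity `l ≈ l'` is in the fully invariant
congruence `β` (`Pool.Agent.Helper2_MV.RR`, tools `RR.append`, `RR.sub`, `RR.filter`, `RR.symm`;
`β.trans`).  `Ap β`: `x^2 ≈ x^3` in `β`, `x ≈ x^2` not in `β`.  `gaml P`, `le_gaml`, `RR_gaml`,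
`gaml_keep`, `pent` are in `MWF/Defs.lean`.
-/

namespace Pool.Agent.MWF

open Pool.Agent.Helper14_MV Pool.Agent.Helper2_MV

/-- POW (easy).  All powers `x^j`, `j ≥ 2`, are equal.
Proof: induction on `j`: from `RR β [0,0] [0,0,0]` append `replicate (j-2) 0` on the right. -/
def PowStmt : Prop := ∀ β : FIC, RR β [0, 0] [0, 0, 0] → ∀ (c i j : ℕ), 2 ≤ i → 2 ≤ j →
  RR β (List.replicate i c) (List.replicate j c)

/-- CTT (easy, uses POW).  Identities of `β` have the same content.
Proof: let `c ∈ u`, `c ∉ v`.  `RR.filter (fun d => d = c)` gives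
`RR β (replicate k c) []` with `k = u.count c ≥ 1` (`List.filter_eq'`); `RR.sub (fun _ => [0])` gives
`RR β (replicate k 0) []`.  Append `[0]` on the right: `RR β (replicate (k+1) 0) [0]`, and
`replicate (k+1) 0 ~ [0,0]` by POW, so `RR β [0] [0,0]`, excluded by `Ap.ncr`. -/
def CttStmt : Prop := ∀ β : FIC, Ap β → ∀ u v : List ℕ, RR β u v → ∀ c, c ∈ u ↔ c ∈ v

/-- SIM (easy, uses POW, CTT).  Simple letters stay simple.
Proof: filter the letter `c` as in CTT: `RR β [c] (replicate m c)` with `m = v.count c`, `m ≠ 0` by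
CTT; if `m ≥ 2` then `replicate m c ~ [c, c]` (POW); substitute all letters by `[0]`:
`RR β [0] [0,0]`, excluded. -/
def SimStmt : Prop := ∀ β : FIC, Ap β → ∀ u v : List ℕ, RR β u v → ∀ c, u.count c = 1 →
  v.count c = 1

/-- SMP (easy-medium, uses CTT, SIM).  If `xy ≈ yx` is not in `β`, the identities of `β` keep the
sequence of the simple letters.
Proof: let `S = {c : u.count c = 1}`; by SIM (both directions) `S = {c : v.count c = 1}`.  The two
filtered lists `u' = u.filter (count u c = 1)` and `v'` are duplicate free lists with the same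
members (`c` is in `u'` iff `u.count c = 1`).  If they are different, there are `c, d` with
`u' = .. c .. d ..` and `v' = .. d .. c ..` (two duplicate free lists with the same members such
that every pair has the same order are equal: e.g. induction; or `List.Perm` and
`List.eq_of_perm_of_sorted` for the relation: index in `u'`).  Filter `{c, d}` in `RR β u v`
(`RR.filter`): `RR β [c, d] [d, c]`; substitute `c ↦ [0]`, `d ↦ [1]`: `RR β [0,1] [1,0]`,
excluded. -/
def SmpStmt : Prop := ∀ β : FIC, Ap β → ¬ RR β [0, 1] [1, 0] → ∀ u v : List ℕ, RR β u v →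
  u.filter (fun c => u.count c = 1) = v.filter (fun c => v.count c = 1)

/-- OPR (easy).  Duality on lists.
Proof: `(FreeMonoid.ofList l).reverse = FreeMonoid.ofList l.reverse` and the definition of
`FIC.op`; `Ap`: the lists `[0,0]`, `[0,0,0]`, `[0]` are palindromes; `ModF`: `op_modF` (file
Helper14_MV/B2) and `op (op β) = β` (`FIC.ext'`, `FreeMonoid.reverse_reverse`). -/
def OprStmt : Prop := ∀ β : FIC, (∀ l l' : List ℕ, RR (FIC.op β) l l' ↔ RR β l.reverse l'.reverse) ∧
  (Ap β → Ap (FIC.op β)) ∧ (ModF β → ModF (FIC.op β)) ∧ FIC.op (FIC.op β) = β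

/-- BND (medium).  In a non completely regular modular situation every two element right zero or
left zero band in the free monoid of the variety is trivial.
Proof of the first clause (the second is the same with `k * g = k`, `g * k = g`): let
`M = β.con.Quotient`, `γ.r u v := ∀ φ : Word →* M, (∀ i, φ (of i) ∈ ({1, g, k} : Set M)) →
φ u = φ v`.  The set `S = {1, g, k}` is closed under multiplication (gg = g, kk = k, gk = k,
kg = g), so every such `φ` has `φ w ∈ S` for all `w` (induction on `w`).  `γ` is a fully invariant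
congruence: `refl`, `symm`, `trans`, `mul` are clear (`map_mul`), `sub ψ`: `φ ∘ ψ` maps the letters
into `S` again.  `β ≤ γ` by `quot_sat` (Helper14_MV/Bridge).  `γ` contains `x^2 ≈ x` since all
elements of `S` are idempotent: `γ.r (lx ^ (1+1)) lx`.  `Helper14_MV.B1 β h hcr γ hle 1 le_rfl hg`
(file Helper4_MV/Iso) gives `γ.r (lx * ly) (ly * lx)`; here
`hcr : ∀ n ≥ 1, ¬ β.r (lx ^ (n + 1)) lx`, because `x^(n+1) = x^2` in `β` (`n + 1 ≥ 2`, from
`Ap.sq`), so `x^(n+1) ≈ x` would give `RR β [0] [0,0]`.  Evaluate at `x ↦ g`, `y ↦ k`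
(`FreeMonoid.lift (fun i => if i = 0 then g else k)`): `g k = k g`, that is `k = g`. -/
def BndStmt : Prop := ∀ β : FIC, ModF β → Ap β → ∀ g k : β.con.Quotient, g * g = g → k * k = k →
  ((g * k = k → k * g = g → k = g) ∧ (k * g = k → g * k = g → k = g))

/-- ABF (easy-medium, uses BND).  Products of idempotents: in `M = β.con.Quotient` let
`e, f : M` be idempotent, `w = e * t = t' * f` with `w * w = w * w * w`, `g = w * w`.  Then
`g * e = g` and `f * g = g`.
Proof: `e w = w` (`e e t = e t`), `w f = w`.  `g g = w^4 = w^2 = g` (from `w^2 = w^3`).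
`k := g e`: `k k = g e g e = g (e g) e = g g e = k` because `e g = e w w = g`; `g k = g g e = k`;
`k g = g e g = g g = g`.  BND, first clause: `k = g`.  `m := f g`: `g f = w w f = g`;
`m m = f g f g = f g g = m`; `m g = f g g = m`; `g m = g f g = g g = g`.  BND, second clause with
`k := m` (`m g = m`, `g m = g`): `m = g`. -/
def AbfStmt : Prop := ∀ β : FIC, ModF β → Ap β → ∀ e f t t' w : β.con.Quotient, e * e = e →
  f * f = f → w = e * t → w = t' * f → w * w = w * w * w → w * w * e = w * w ∧ f * (w * w) = w * w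

/-- ABS (medium, uses POW, ABF).  The square of a product of idempotent letters absorbs all its
letters.
Proof.  In `M = β.con.Quotient` every word `w` has `w^2 = w^3` (`x^2 ≈ x^3`, `RR.sub`), the value
`e_c` of `[c, c]` is idempotent (POW).  Let `u = c :: u'` (the list `[]` has no member), `W(u)` the
value of `dbl u`.  (1) `W(u) = e_c W(u')` and `W(u) = W(..) e_d` for the last letter `d`; ABF:
`W(u)^2 e_c = W(u)^2` for the first letter `c`, and `e_d W(u)^2 = W(u)^2` for the last letter `d`.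
(2) rotation: `u = c :: u'`, `v = u' ++ [c]`: `W(u)^2 = W(v)^2`.  Indeed `W(u) = e_c B`,
`W(v) = B e_c` with `B = W(u')`; `W(v)^3 = B (e_c B)^2 e_c = B W(u)^2 e_c = B W(u)^2` by (1), hence
`e_c W(v)^3 = e_c B W(u)^2 = W(u)^3 = W(u)^2`; and `e_c W(v)^2 = W(v)^2` by (1) for `v` (its last
letter is `c`), with `W(v)^3 = W(v)^2`: `W(v)^2 = e_c W(v)^2 = W(u)^2`.  (3) By (2) `W(u)^2 = W(u1)^2`
for every rotation `u1` of `u`; every letter `c` of `u` is the first letter of a rotation and the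
last letter of a rotation, so `W(u)^2 e_c = W(u)^2 = e_c W(u)^2`.  (4) `e_c` times the letter `c` is
`e_c` (`x^3 = x^2`), so `W(u)^2 c = W(u)^2 e_c c = W(u)^2 e_c = W(u)^2`, same on the left. -/
def AbsStmt : Prop := ∀ β : FIC, ModF β → Ap β → ∀ (u : List ℕ) (c : ℕ), c ∈ u →
  RR β (dbl u ++ dbl u ++ [c]) (dbl u ++ dbl u) ∧ RR β (c :: (dbl u ++ dbl u)) (dbl u ++ dbl u)

/-- ZER (easy-medium, uses ABS).  The square of a product of idempotent letters depends only on the
set of the letters; it absorbs all words in these letters.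
Proof: (b) induction on `l` with ABS.  (a) `dbl u ++ dbl u ~ (dbl u ++ dbl u) ++ (dbl v ++ dbl v)` by
(b), `~ dbl v ++ dbl v` by the left version of (b) for `v`, because `u` and `v` have the same
letters. -/
def ZerStmt : Prop := ∀ β : FIC, ModF β → Ap β →
  (∀ u v : List ℕ, (∀ c, c ∈ u ↔ c ∈ v) → RR β (dbl u ++ dbl u) (dbl v ++ dbl v)) ∧
  (∀ u l : List ℕ, (∀ c ∈ l, c ∈ u) → RR β (dbl u ++ dbl u ++ l) (dbl u ++ dbl u) ∧
    RR β (l ++ (dbl u ++ dbl u)) (dbl u ++ dbl u))

/-- SPL (easy-medium, uses POW, CTT, SIM).  If `xyx` is not an isoterm, one of five identities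
holds.
Proof: `¬ Iso3 β`: there is `l` with `RR β [0,1,0] l`, `l ≠ [0,1,0]`.  By CTT the letters of `l` are
`0` and `1`, by SIM `l.count 1 = 1`, so `l = replicate a 0 ++ 1 :: replicate b 0`.
`a = 0, b = 0`: content (CTT).  `a + b = 1`: filter the letter `0`: `RR β [0,0] [0]`, excluded.
`(a, b) = (1, 1)` is excluded by `l ≠ [0,1,0]`.  Otherwise replace `replicate a 0` by `[0,0]` if
`a ≥ 2`, the same for `b` (POW): the five cases are (≥2, 0), (0, ≥2), (1, ≥2), (≥2, 1), (≥2, ≥2). -/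
def SplStmt : Prop := ∀ β : FIC, Ap β → ¬ Iso3 β →
  RR β [0, 1, 0] [0, 0, 1] ∨ RR β [0, 1, 0] [1, 0, 0] ∨ RR β [0, 1, 0] [0, 1, 0, 0] ∨
    RR β [0, 1, 0] [0, 0, 1, 0] ∨ RR β [0, 1, 0] [0, 0, 1, 0, 0]

/-- RRA (medium, uses POW, CTT, SIM).  Closed set for RRD.  Let `xyx` be an isoterm for `β` and let
`x t x^2 ≈ x^2 t x^2` be NOT in `β`.  Then `β` preserves `A = {x t x^k : k ≥ 1}` (`x = 0`, `t = 1`).
Proof: let `u = [0,1] ++ replicate k 0`, `k ≥ 1`, `RR β u v`.  By CTT and SIM
`v = replicate a 0 ++ 1 :: replicate b 0`.  `k = 1`: `v = u` (`Iso3`).  Let `k ≥ 2`, so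
`u ~ [0,1,0,0]`.  Suppose `¬ (a = 1 ∧ b ≥ 1)`.  `a + b ≤ 1` is impossible (filter `0`:
`[0,0,0] ~ [0]` or `~ []`, with `x^3 = x^2` excluded by `Ap.ncr` / CTT).
`b ≥ 2`, `a = 0`: `[0,1,0,0] ~ [1,0,0]`; put `0` in front of both sides: `[0,0,1,0,0] ~ [0,1,0,0]`,
excluded.  `b ≥ 2`, `a ≥ 2`: excluded directly.  `b = 1`: `a ≥ 2` (`a = 0`: filter gives
`x^3 = x`): `[0,1,0,0] ~ [0,0,1,0]`; put `0` in front: `[0,0,1,0,0] ~ [0,0,0,1,0] ~ [0,0,1,0] ~
[0,1,0,0]`, excluded.  `b = 0`, `a ≥ 2`: `[0,1,0,0] ~ [0,0,1]`; append `0`: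
`[0,1,0,0] ~ [0,1,0,0,0] ~ [0,0,1,0]`, the previous case. -/
def RraStmt : Prop := ∀ β : FIC, Ap β → Iso3 β → ¬ RR β [0, 1, 0, 0] [0, 0, 1, 0, 0] →
  ∀ u v : List ℕ, RR β u v → (∃ k, 1 ≤ k ∧ u = [0, 1] ++ List.replicate k 0) →
    ∃ k, 1 ≤ k ∧ v = [0, 1] ++ List.replicate k 0

/-- RRB (medium).  The identity `x t x ≈ x t x^2` preserves `A = {x t x^k : k ≥ 1}`.
Proof: `RR_gaml`: let `X = f 0`, `Y = f 1`; to show: `p X Y X q ∈ A ↔ p X Y X X q ∈ A`.  If
`X = []` both lists are equal.  Assume `X ≠ []`.  (→) `p X Y X q = 0 1 0^k`.  `1 ∉ X` (it would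
occur twice).  So `X = 0^j`, `j ≥ 1`.  If `1 ∈ p`: everything behind is a power of `0`, then
`p X Y X X q = 0 1 0^(k+j)`.  If `1 ∈ q`: `X Y X` is in front of the `1`, but it contains two
letters, and in front of `1` there is only one.  If `1 ∈ Y`: the first `X` is in front of `1`,
so `p = []`, `X = [0]`, `Y = 1 0^i`; the new word is `0 1 0^(k+1)`.  (←) `p X Y X X q = 0 1 0^k`,
same cases: `1 ∈ p`: `p X Y X q = 0 1 0^(k-j)` and there is still the `X` behind: `k - j ≥ 1`
(`k ≥ 3 j` ... the letters behind `1` contain `X X X`).  `1 ∈ Y`: the letters behind `1` contain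
`X X`, one of them is removed, `k - 1 ≥ 1`.  `1 ∈ q`, `1 ∈ X`: impossible. -/
def RrbStmt : Prop := RR (gaml (fun w => ∃ k, 1 ≤ k ∧ w = [0, 1] ++ List.replicate k 0))
  [0, 1, 0] [0, 1, 0, 0]

/-- RRD (medium, uses RRA, RRB, OPR).  **If `xyx` is an isoterm and the lattice is modular, then
`x^2 t x ≈ x^2 t x^2` or `x t x^2 ≈ x^2 t x^2` holds.**
Proof: suppose that both fail.  `A = {x t x^k : k ≥ 1}`, `A' = {x^k t x : k ≥ 1}` (the reverse with
the same names of the letters).  `σ := gaml A`, `τ := gaml A'`.  By RRA (and `le_gaml`) `β ≤ σ`, and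
by RRA for `FIC.op β` (OPR; the dual of `x t x^2 ≈ x^2 t x^2` is `x^2 t x ≈ x^2 t x^2`; `Iso3` is
self dual) `β ≤ τ`.  RRB: `x t x ≈ x t x^2` in `σ`; the reversed RRB: `x t x ≈ x^2 t x` in `τ`
(`FIC.op (gaml A)`, or repeat the proof).  `ρ := FIC.inf (gaml (fun w => w = [0,1,0])) τ`.  Then
`β ≤ ρ` (`Iso3`), `ρ ≤ τ`.  `x t x^2 ≈ x^2 t x^2` is in `τ` (append `x` to `x t x ≈ x^2 t x`) and it
is in `gaml (· = [0,1,0])` (`RR_gaml`: `p X Y X X q = [0,1,0]` or `p X X Y X X q = [0,1,0]` implies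
`X = []`, because a letter of `X` would occur at least three times).  So it is in `ρ`.  Chain:
`x t x ~σ x t x^2 ~ρ x^2 t x^2 ~σ x^2 t x` (the last one: put `x` in front of
`x t x ≈ x t x^2`), so `(xtx, x^2tx)` is in `sup ρ σ`, and it is in `τ`.  `pent` with
`P = (· = [0,1,0])`: `ρ` preserves `P`; a pair of `σ` and `τ` preserves `A` and `A'`, so `P`
(`A ∩ A' = {[0,1,0]}`).  Hence `x^2 t x = x t x` as words: contradiction. -/
def RrdStmt : Prop := ∀ β : FIC, ModF β → Ap β → Iso3 β →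
  RR β [0, 0, 1, 0] [0, 0, 1, 0, 0] ∨ RR β [0, 1, 0, 0] [0, 0, 1, 0, 0]

end Pool.Agent.MWF
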